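import Pool.Agent.H15CG.Fin

/-! In a totally disconnected locally compact group with a non-degenerate faithful weakly
decomposable action on a Boolean algebra, every closed contraction group is trivial. -/

set_option autoImplicit false
set_option linter.unusedSectionVars false

namespace Pool.Agent.Results.MP_5e309c_al.ClosedConTrivial

open Filter Topology Set
open scoped Pointwise commutatorElement

universe u v

/-- The contraction group of `g`: all `x` with `g ^ n * x * g ^ (-n) → 1` as `n → ∞`. -/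
def con {G : Type u} [Group G] [TopologicalSpace G] (g : G) : Set G :=
  {x | Tendsto (fun n : ℕ => g ^ n * x * (g ^ n)⁻¹) atTop (𝓝 1)}

/-- The action of `G` on the Boolean algebra `A` is by automorphisms and is non-degenerate
faithful weakly decomposable. -/
structure WeaklyDecomposable (G : Type u) [Group G] [TopologicalSpace G] (A : Type v)
    [BooleanAlgebra A] [MulAction G A] : Prop where
  /-- each `g` acts as an automorphism of `A` -/
  mono : ∀ (g : G) (a b : A), a ≤ b ↔ g • a ≤ g • b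
  /-- the action is faithful -/
  faithful : ∀ g : G, (∀ a : A, g • a = a) → g = 1
  /-- stabilisers of nonzero elements are open -/
  stab_open : ∀ a : A, a ≠ ⊥ → IsOpen {g : G | g • a = a}
  /-- the pointwise stabiliser of the elements disjoint from a nonzero `a` is not discrete -/
  nondiscrete : ∀ a : A, a ≠ ⊥ → ¬ DiscreteTopology (fixingSubgroup G {b : A | a ⊓ b = ⊥})

section Action

variable {G : Type u} [Group G] [TopologicalSpace G] {A : Type v} [BooleanAlgebra A]
  [MulAction G A]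

/-- the order automorphism given by `g` -/
def oi (h : WeaklyDecomposable G A) (g : G) : A ≃o A where
  toFun a := g • a
  invFun a := g⁻¹ • a
  left_inv a := by simp
  right_inv a := by simp
  map_rel_iff' := fun {a b} => (h.mono g a b).symm

theorem sinf (h : WeaklyDecomposable G A) (g : G) (a b : A) : g • (a ⊓ b) = g • a ⊓ g • b :=
  (oi h g).map_inf a b

theorem ssup (h : WeaklyDecomposable G A) (g : G) (a b : A) : g • (a ⊔ b) = g • a ⊔ g • b :=
  (oi h g).map_sup a b

theorem sbot (h : WeaklyDecomposable G A) (g : G) : g • (⊥ : A) = ⊥ := (oi h g).map_bot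

/-- the rigid stabiliser -/
abbrev ris (G : Type u) [Group G] {A : Type v} [BooleanAlgebra A] [MulAction G A] (b : A) :
    Subgroup G := fixingSubgroup G {c : A | b ⊓ c = ⊥}

theorem mem_ris {b : A} {x : G} : x ∈ ris G b ↔ ∀ c : A, b ⊓ c = ⊥ → x • c = c := by
  simp [ris, mem_fixingSubgroup_iff]

theorem split (a b : A) : a = (a ⊓ b) ⊔ (a ⊓ bᶜ) := by
  rw [← inf_sup_left, sup_compl_eq_top, inf_top_eq]

theorem ris_fix (h : WeaklyDecomposable G A) {b : A} {x : G} (hx : x ∈ ris G b) : x • b = b := by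
  have h1 : x • bᶜ = bᶜ := mem_ris.1 hx _ (by simp)
  have h2 : x • (bᶜ)ᶜ = (x • bᶜ)ᶜ := map_compl' (oi h x) bᶜ
  rwa [h1, compl_compl] at h2

theorem ris_le (h : WeaklyDecomposable G A) {b c : A} {x : G} (hx : x ∈ ris G b) (hc : c ≤ b) :
    x • c ≤ b := by
  have := (h.mono x c b).1 hc
  rwa [ris_fix h hx] at this

theorem ris_comm (h : WeaklyDecomposable G A) {b c : A} {x y : G} (hx : x ∈ ris G b)
    (hy : y ∈ ris G c) (hbc : b ⊓ c = ⊥) : x * y = y * x := by
  have hd : ∀ p q : A, p ≤ b → q ≤ c → p ⊓ q = ⊥ := fun p q hp hq =>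
    le_bot_iff.1 ((inf_le_inf hp hq).trans hbc.le)
  have key : ∀ a : A, (x * y) • a = (y * x) • a := by
    intro a
    have e1 : ∀ p : A, p ≤ b → (x * y) • p = (y * x) • p := by
      intro p hp
      rw [mul_smul, mul_smul]
      rw [mem_ris.1 hy p (by rw [inf_comm]; exact hd p c hp le_rfl)]
      exact (mem_ris.1 hy _ (by rw [inf_comm]; exact hd _ c (ris_le h hx hp) le_rfl)).symm
    have e2 : ∀ p : A, p ≤ bᶜ → (x * y) • p = (y * x) • p := by
      intro p hp
      have hbp : b ⊓ p = ⊥ := le_bot_iff.1 ((inf_le_inf le_rfl hp).trans (by simp))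
      rw [mul_smul, mul_smul, mem_ris.1 hx p hbp]
      apply mem_ris.1 hx
      have h3 : y • b = b := mem_ris.1 hy b (by rw [inf_comm]; exact hbc)
      have h4 : b ⊓ y • p = y • (b ⊓ p) := by rw [sinf h, h3]
      rw [h4, hbp, sbot h]
    rw [split a b, ssup h, ssup h, e1 _ inf_le_right, e2 _ inf_le_right]
  have := h.faithful ((y * x)⁻¹ * (x * y)) (fun a => by rw [mul_smul, key, inv_smul_smul])
  rw [inv_mul_eq_one] at this
  exact this.symm

theorem ris_inter (h : WeaklyDecomposable G A) {b c : A} {x : G} (hx : x ∈ ris G b)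
    (hy : x ∈ ris G c) (hbc : b ⊓ c = ⊥) : x = 1 := by
  apply h.faithful
  intro a
  rw [split a b, ssup h]
  rw [mem_ris.1 hy (a ⊓ b) (by
    apply le_bot_iff.1
    calc c ⊓ (a ⊓ b) ≤ c ⊓ b := inf_le_inf le_rfl inf_le_right
      _ = ⊥ := by rw [inf_comm]; exact hbc
      _ ≤ ⊥ := le_rfl)]
  rw [mem_ris.1 hx (a ⊓ bᶜ) (by
    apply le_bot_iff.1
    calc b ⊓ (a ⊓ bᶜ) ≤ b ⊓ bᶜ := inf_le_inf le_rfl inf_le_right
      _ = ⊥ := by simp
      _ ≤ ⊥ := le_rfl)]

theorem ris_conj (h : WeaklyDecomposable G A) {b : A} {x : G} (g : G) (hx : x ∈ ris G b) :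
    g * x * g⁻¹ ∈ ris G (g • b) := by
  rw [mem_ris]
  intro c hc
  have h1 : b ⊓ g⁻¹ • c = ⊥ := by
    have := congrArg (fun z => g⁻¹ • z) hc
    simp only [sinf h, sbot h, inv_smul_smul] at this
    exact this
  rw [mul_smul, mul_smul, mem_ris.1 hx _ h1, smul_inv_smul]

theorem ris_mono {b c : A} (hbc : b ≤ c) : ris G b ≤ ris G c := by
  intro x hx
  rw [mem_ris] at hx ⊢
  intro d hd
  exact hx d (le_bot_iff.1 ((inf_le_inf hbc le_rfl).trans hd.le))

theorem exists_moved (h : WeaklyDecomposable G A) {x : G} (hx : x ≠ 1) :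
    ∃ a : A, a ≠ ⊥ ∧ x • a ⊓ a = ⊥ := by
  have : ∃ a : A, x • a ≠ a := by
    by_contra hcon
    push Not at hcon
    exact hx (h.faithful x hcon)
  obtain ⟨a, ha⟩ := this
  by_cases h1 : x • a ≤ a
  · have h2 : ¬ a ≤ x • a := fun h3 => ha (le_antisymm h1 h3)
    refine ⟨a ⊓ (x • a)ᶜ, fun h3 => h2 ?_, ?_⟩
    · rwa [← _root_.sdiff_eq, sdiff_eq_bot_iff] at h3
    · apply le_bot_iff.1
      calc x • (a ⊓ (x • a)ᶜ) ⊓ (a ⊓ (x • a)ᶜ) ≤ x • a ⊓ (x • a)ᶜ :=
            inf_le_inf ((h.mono x _ _).1 inf_le_left) inf_le_right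
        _ = ⊥ := by simp
        _ ≤ ⊥ := le_rfl
  · refine ⟨x⁻¹ • (x • a ⊓ aᶜ), fun h3 => h1 ?_, ?_⟩
    · have h4 : x • a ⊓ aᶜ = ⊥ := by
        have := congrArg (fun z => x • z) h3
        simpa only [smul_inv_smul, sbot h] using this
      rwa [← _root_.sdiff_eq, sdiff_eq_bot_iff] at h4
    · rw [smul_inv_smul]
      apply le_bot_iff.1
      have h5 : x⁻¹ • (x • a ⊓ aᶜ) ≤ a := by
        have := (h.mono x⁻¹ _ _).1 (inf_le_left : x • a ⊓ aᶜ ≤ x • a)
        rwa [inv_smul_smul] at this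
      calc (x • a ⊓ aᶜ) ⊓ x⁻¹ • (x • a ⊓ aᶜ) ≤ aᶜ ⊓ a := inf_le_inf inf_le_right h5
        _ = ⊥ := by simp
        _ ≤ ⊥ := le_rfl

theorem moved_le (h : WeaklyDecomposable G A) {a b : A} {y : G} (hy : y ∈ ris G b)
    (hya : y • a ⊓ a = ⊥) : a ≤ b := by
  have h1 : y • (a ⊓ bᶜ) = a ⊓ bᶜ := mem_ris.1 hy _ (by
    apply le_bot_iff.1
    calc b ⊓ (a ⊓ bᶜ) ≤ b ⊓ bᶜ := inf_le_inf le_rfl inf_le_right
      _ = ⊥ := by simp
      _ ≤ ⊥ := le_rfl)
  have h2 : a ⊓ bᶜ ≤ y • a ⊓ a := by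
    apply le_inf
    · rw [← h1]
      exact (h.mono y _ _).1 inf_le_left
    · exact inf_le_left
  rw [hya] at h2
  have h3 := le_bot_iff.1 h2
  rwa [← _root_.sdiff_eq, sdiff_eq_bot_iff] at h3

/-- a nondiscrete subgroup has nontrivial elements in every neighbourhood of `1` -/
theorem exists_small (h : WeaklyDecomposable G A) [IsTopologicalGroup G] {a : A} (ha : a ≠ ⊥)
    {V : Set G} (hV : V ∈ 𝓝 (1 : G)) : ∃ y ∈ ris G a, y ∈ V ∧ y ≠ 1 := by
  by_contra hcon
  push Not at hcon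
  apply h.nondiscrete a ha
  rw [discreteTopology_iff_isOpen_singleton_one]
  have h1 : (Subtype.val : ris G a → G) ⁻¹' V ∈ 𝓝 (1 : ris G a) :=
    continuous_subtype_val.continuousAt.preimage_mem_nhds (by simpa using hV)
  have h2 : (Subtype.val : ris G a → G) ⁻¹' V = {1} := by
    ext y
    constructor
    · intro hy
      exact Subtype.ext (hcon y y.2 hy)
    · rintro rfl
      change (1 : G) ∈ V
      exact mem_of_mem_nhds hV
  rw [h2] at h1
  exact isOpen_singleton_iff_nhds_eq_pure _ |>.2 (le_antisymm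
    (by rw [← principal_singleton]; exact le_principal_iff.2 h1) (pure_le_nhds _))

end Action

section Main

variable {G : Type u} [Group G] [TopologicalSpace G] [IsTopologicalGroup G] [T2Space G]
  {A : Type v} [BooleanAlgebra A] [MulAction G A]

/-- the contraction group as a subgroup -/
def conS (g : G) : Subgroup G where
  carrier := con g
  mul_mem' := by
    intro x y hx hy
    have h1 := Filter.Tendsto.mul hx hy
    rw [mul_one] at h1
    refine h1.congr fun n => ?_
    group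
  one_mem' := by
    change Tendsto (fun n : ℕ => g ^ n * 1 * (g ^ n)⁻¹) atTop (𝓝 1)
    simp
  inv_mem' := by
    intro x hx
    have h1 := Filter.Tendsto.inv hx
    rw [inv_one] at h1
    refine h1.congr fun n => ?_
    group

theorem mem_conS {g x : G} : x ∈ conS g ↔ x ∈ con g := Iff.rfl

theorem con_conj {g x : G} (hx : x ∈ conS g) : g * x * g⁻¹ ∈ conS g := by
  have h1 : Tendsto (fun n : ℕ => g ^ n * x * (g ^ n)⁻¹) atTop (𝓝 1) := hx
  have h2 := h1.comp (tendsto_add_atTop_nat 1)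
  refine h2.congr fun n => ?_
  simp only [Function.comp]
  rw [pow_succ]
  group

theorem con_conj' {g x : G} (hx : x ∈ conS g) : g⁻¹ * x * g ∈ conS g := by
  have h1 : Tendsto (fun n : ℕ => g ^ n * x * (g ^ n)⁻¹) atTop (𝓝 1) := hx
  have h2 := (h1.const_mul g⁻¹).mul_const g
  rw [mul_one, inv_mul_cancel] at h2
  refine h2.congr fun n => ?_
  have h3 : g ^ n * g⁻¹ = g⁻¹ * g ^ n := by
    have : Commute (g ^ n) g⁻¹ := (Commute.refl g).pow_left n |>.inv_right
    exact this
  have h4 : g * (g ^ n)⁻¹ = (g ^ n)⁻¹ * g := by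
    have : Commute g (g ^ n)⁻¹ := ((Commute.refl g).pow_right n).inv_right
    exact this
  calc g⁻¹ * (g ^ n * x * (g ^ n)⁻¹) * g = (g⁻¹ * g ^ n) * x * ((g ^ n)⁻¹ * g) := by group
    _ = (g ^ n * g⁻¹) * x * (g * (g ^ n)⁻¹) := by rw [h3, h4]
    _ = g ^ n * (g⁻¹ * x * g) * (g ^ n)⁻¹ := by group

/-- conjugation by `g` on the contraction group -/
def cj (g : G) : MulAut (conS g) where
  toFun x := ⟨g * x * g⁻¹, con_conj x.2⟩
  invFun x := ⟨g⁻¹ * x * g, con_conj' x.2⟩
  left_inv x := by ext; simp [mul_assoc]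
  right_inv x := by ext; simp [mul_assoc]
  map_mul' x y := by ext; simp [mul_assoc]

theorem e_cj (g : G) (n : ℕ) (x : conS g) :
    ((H15CG.e (cj g) n x : conS g) : G) = g ^ n * x * (g ^ n)⁻¹ := by
  induction n with
  | zero => simp [H15CG.e_zero]
  | succ n ih =>
    have : ((n + 1 : ℕ) : ℤ) = 1 + n := by push_cast; ring
    rw [this, H15CG.e_add]
    have h1 : ∀ y : conS g, ((H15CG.e (cj g) 1 y : conS g) : G) = g * y * g⁻¹ := by
      intro y
      simp [H15CG.e, cj]
    rw [h1, ih, pow_succ']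
    group

theorem con_cj (g : G) : H15CG.Con (cj g) where
  c := by
    have : (fun x => H15CG.e (cj g) 1 x) = fun x : conS g => (⟨g * x * g⁻¹, con_conj x.2⟩ : conS g) := by
      funext x
      simp [H15CG.e, cj]
    rw [this]
    exact Continuous.subtype_mk (by fun_prop) _
  c' := by
    have : (fun x => H15CG.e (cj g) (-1) x) =
        fun x : conS g => (⟨g⁻¹ * x * g, con_conj' x.2⟩ : conS g) := by
      funext x
      have : H15CG.e (cj g) (-1) x = (cj g).symm x := by
        simp [H15CG.e]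
      rw [this]
      rfl
    rw [this]
    exact Continuous.subtype_mk (by fun_prop) _
  t := by
    intro x
    rw [tendsto_subtype_rng]
    have : (fun n : ℕ => ((H15CG.e (cj g) n x : conS g) : G)) = fun n : ℕ => g ^ n * x * (g ^ n)⁻¹ := by
      funext n
      exact e_cj g n x
    rw [this]
    exact x.2

variable [LocallyCompactSpace G] [TotallyDisconnectedSpace G]

/-- step 1: the rigid stabilisers of far translates are small -/
theorem step1a (h : WeaklyDecomposable G A) {g x : G} {b : A} (hx : x ∈ con g)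
    (hxb : x • b ⊓ b = ⊥) {U : Set G} (hU : IsCompact U) {O : Set G} (hO : O ∈ 𝓝 (1 : G)) :
    ∃ J : ℕ, ∀ j : ℕ, J ≤ j → ∀ y ∈ ris G (g ^ j • b), y ∈ U → y ∈ O := by
  by_contra hcon
  push Not at hcon
  choose j hj y hy hyU hyO using hcon
  obtain ⟨O', hO'O, hO'o, h1O'⟩ := mem_nhds_iff.1 hO
  have hK : IsCompact (U ∩ O'ᶜ) := hU.inter_right hO'o.isClosed_compl
  let u : Ultrafilter ℕ := hyperfilter ℕ
  have hu : (u : Filter ℕ) ≤ atTop := by
    rw [← Nat.cofinite_eq_atTop]
    exact Filter.hyperfilter_le_cofinite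
  obtain ⟨z, hz1, hz2⟩ := hK.ultrafilter_le_nhds (u.map y)
    (by
      rw [Filter.le_principal_iff]
      exact Filter.Eventually.of_forall (f := (u : Filter ℕ))
        (fun n => ⟨hyU n, fun hn => hyO n (hO'O hn)⟩))
  have ht : Tendsto y (u : Filter ℕ) (𝓝 z) := hz2
  have hz0 : z ≠ 1 := by
    rintro rfl
    exact hz1.2 h1O'
  obtain ⟨a, ha0, ha⟩ := exists_moved h hz0
  have hst := h.stab_open a ha0
  have e1 : ∀ᶠ n in (u : Filter ℕ), y n • a = z • a := by
    have hop : IsOpen {w : G | z⁻¹ * w ∈ {g : G | g • a = a}} := hst.preimage (by fun_prop)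
    have : ∀ᶠ w in 𝓝 z, z⁻¹ * w ∈ {g : G | g • a = a} := hop.mem_nhds (by
      change (z⁻¹ * z) • a = a
      rw [inv_mul_cancel, one_smul])
    filter_upwards [ht.eventually this] with n hn
    have h2 : (z⁻¹ * y n) • a = a := hn
    rw [mul_smul, inv_smul_eq_iff] at h2
    exact h2
  have htop : Tendsto j (u : Filter ℕ) atTop := by
    have : Tendsto j atTop atTop := tendsto_atTop_mono hj tendsto_id
    exact this.mono_left hu
  have e2 : ∀ᶠ n in (u : Filter ℕ), (g ^ j n * x * (g ^ j n)⁻¹) • a = a := by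
    have h1 : Tendsto (fun n : ℕ => g ^ n * x * (g ^ n)⁻¹) atTop (𝓝 1) := hx
    exact (h1.comp htop).eventually (hst.mem_nhds (by
      change (1 : G) • a = a
      rw [one_smul]))
  obtain ⟨n, hn1, hn2⟩ := (e1.and e2).exists
  have h3 : a ≤ g ^ j n • b := moved_le h (hy n) (by rw [hn1]; exact ha)
  have h4 : a ≤ g ^ j n • (x • b) := by
    have := (h.mono (g ^ j n * x * (g ^ j n)⁻¹) _ _).1 h3
    rw [hn2, mul_smul, mul_smul, inv_smul_smul] at this
    exact this
  apply ha0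
  apply le_bot_iff.1
  calc a ≤ g ^ j n • (x • b) ⊓ g ^ j n • b := le_inf h4 h3
    _ = g ^ j n • (x • b ⊓ b) := (sinf h _ _ _).symm
    _ = ⊥ := by rw [hxb, sbot h]
    _ ≤ ⊥ := le_rfl

theorem step1 (h : WeaklyDecomposable G A) {g x : G} {b : A} (hx : x ∈ con g)
    (hxb : x • b ⊓ b = ⊥) : ∃ V ∈ 𝓝 (1 : G), ∀ y ∈ ris G b, y ∈ V → y ∈ con g := by
  obtain ⟨U, hUo, hUc, -⟩ := H15CG.vdt (N := G) Set.univ univ_mem
  have hO : {z : G | g * z * g⁻¹ ∈ U} ∈ 𝓝 (1 : G) := by
    have : IsOpen {z : G | g * z * g⁻¹ ∈ (U : Set G)} := hUo.preimage (by fun_prop)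
    apply this.mem_nhds
    change g * 1 * g⁻¹ ∈ U
    simp
  obtain ⟨J, hJ⟩ := step1a h hx hxb hUc hO
  refine ⟨{z : G | g ^ J * z * (g ^ J)⁻¹ ∈ U}, ?_, ?_⟩
  · have : IsOpen {z : G | g ^ J * z * (g ^ J)⁻¹ ∈ (U : Set G)} := hUo.preimage (by fun_prop)
    apply this.mem_nhds
    change g ^ J * 1 * (g ^ J)⁻¹ ∈ U
    simp
  · intro y hy hyV
    have hr : ∀ j : ℕ, g ^ j * y * (g ^ j)⁻¹ ∈ ris G (g ^ j • b) := fun j => ris_conj h _ hy
    have hU : ∀ j : ℕ, J ≤ j → g ^ j * y * (g ^ j)⁻¹ ∈ U := by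
      intro j hj
      induction j, hj using Nat.le_induction with
      | base => exact hyV
      | succ j hj ih =>
        have := hJ j hj _ (hr j) ih
        have h2 : g * (g ^ j * y * (g ^ j)⁻¹) * g⁻¹ ∈ U := this
        have h3 : g * (g ^ j * y * (g ^ j)⁻¹) * g⁻¹ = g ^ (j + 1) * y * (g ^ (j + 1))⁻¹ := by
          rw [pow_succ']; group
        rwa [h3] at h2
    change Tendsto (fun n : ℕ => g ^ n * y * (g ^ n)⁻¹) atTop (𝓝 1)
    rw [tendsto_def]
    intro O hO'
    obtain ⟨J', hJ'⟩ := step1a h hx hxb hUc hO'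
    rw [mem_atTop_sets]
    exact ⟨max J J', fun n hn => hJ' n (le_trans (le_max_right _ _) hn) _ (hr n)
      (hU n (le_trans (le_max_left _ _) hn))⟩

theorem step2 (h : WeaklyDecomposable G A) (g : G) : H15CG.HH (conS g) := by
  intro S hS x hxS hx1 W hW
  have hxG : (x : G) ≠ 1 := fun h1 => hx1 (Subtype.ext h1)
  obtain ⟨b, hb0, hxb⟩ := exists_moved h hxG
  obtain ⟨V, hV, hVc⟩ := step1 h x.2 hxb
  rw [nhds_subtype_eq_comap, mem_comap] at hW
  obtain ⟨W', hW'1, hW'2⟩ := hW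
  have hcont : Continuous fun p : G × G => p.1⁻¹ * p.2 * p.1 * p.2⁻¹ := by fun_prop
  have hpre : (fun p : G × G => p.1⁻¹ * p.2 * p.1 * p.2⁻¹) ⁻¹' W' ∈ 𝓝 ((1 : G), (1 : G)) := by
    apply hcont.continuousAt.preimage_mem_nhds
    simpa using hW'1
  rw [nhds_prod_eq, mem_prod_iff] at hpre
  obtain ⟨V1, hV1, V2, hV2, hV12⟩ := hpre
  obtain ⟨y, hyb, hyV, hy1⟩ := exists_small h hb0 (Filter.inter_mem hV (Filter.inter_mem hV1 hV2))
  obtain ⟨a, ha0, hya⟩ := exists_moved h hy1
  have hab : a ≤ b := moved_le h hyb hya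
  obtain ⟨z, hza, hzV, hz1⟩ := exists_small h ha0 (Filter.inter_mem hV (Filter.inter_mem hV1 hV2))
  have hzb : z ∈ ris G b := ris_mono hab hza
  have hyN : y ∈ conS g := hVc y hyb hyV.1
  have hzN : z ∈ conS g := hVc z hzb hzV.1
  let y' : conS g := ⟨y, hyN⟩
  let z' : conS g := ⟨z, hzN⟩
  -- v = [y⁻¹, z]
  set p : G := x * y * (x : G)⁻¹ with hp
  have hpr : p ∈ ris G ((x : G) • b) := ris_conj h _ hyb
  have hpy : p * y = y * p := ris_comm h hpr hyb hxb
  have hpz : p * z = z * p := ris_comm h hpr hzb hxb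
  have hv : ((⁅⁅x, y'⁆, z'⁆ : conS g) : G) = y⁻¹ * z * y * z⁻¹ := by
    have h1 : ((⁅⁅x, y'⁆, z'⁆ : conS g) : G) = (p * y⁻¹) * z * (p * y⁻¹)⁻¹ * z⁻¹ := by
      simp [commutatorElement_def, y', z', hp, mul_assoc]
    rw [h1]
    have h2 : p * y⁻¹ = y⁻¹ * p := by
      have : Commute p y⁻¹ := Commute.inv_right hpy
      exact this
    have h3 : p * z * p⁻¹ = z := by rw [hpz, mul_inv_cancel_right]
    calc (p * y⁻¹) * z * (p * y⁻¹)⁻¹ * z⁻¹ = (y⁻¹ * p) * z * (y⁻¹ * p)⁻¹ * z⁻¹ := by rw [h2]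
      _ = y⁻¹ * (p * z * p⁻¹) * y * z⁻¹ := by group
      _ = y⁻¹ * z * y * z⁻¹ := by rw [h3]
  have hv1 : y⁻¹ * z * y * z⁻¹ ≠ 1 := by
    intro h1
    apply hz1
    have h2 : y⁻¹ * z * y = z := by
      rwa [mul_inv_eq_one] at h1
    have h3 : y⁻¹ * z * y⁻¹⁻¹ ∈ ris G (y⁻¹ • a) := ris_conj h y⁻¹ hza
    rw [inv_inv, h2] at h3
    apply ris_inter h hza h3
    have := congrArg (fun w => y⁻¹ • w) hya
    simpa only [sinf h, sbot h, inv_smul_smul] using this
  refine ⟨⁅⁅x, y'⁆, z'⁆, ?_, ?_, ?_⟩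
  · exact H15CG.comm_mem_left hS (H15CG.comm_mem_left hS hxS)
  · apply hW'2
    change ((⁅⁅x, y'⁆, z'⁆ : conS g) : G) ∈ W'
    rw [hv]
    exact hV12 (Set.mk_mem_prod hyV.2.1 hzV.2.2)
  · intro hcomm
    apply hv1
    have h1 : (x : G) * (y⁻¹ * z * y * z⁻¹) = (y⁻¹ * z * y * z⁻¹) * x := by
      have := congrArg (fun w : conS g => (w : G)) hcomm
      simp only [Subgroup.coe_mul] at this
      rwa [hv] at this
    have hvb : y⁻¹ * z * y * z⁻¹ ∈ ris G b :=
      (ris G b).mul_mem ((ris G b).mul_mem ((ris G b).mul_mem ((ris G b).inv_mem hyb) hzb) hyb)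
        ((ris G b).inv_mem hzb)
    have h2 := ris_conj h (x : G) hvb
    have h3 : (x : G) * (y⁻¹ * z * y * z⁻¹) * (x : G)⁻¹ = y⁻¹ * z * y * z⁻¹ := by
      rw [h1, mul_inv_cancel_right]
    rw [h3] at h2
    exact ris_inter h h2 hvb hxb

end Main

/-- Let `G` be a totally disconnected locally compact group with a non-degenerate faithful weakly
decomposable action on a Boolean algebra and let `g ∈ G` have a closed contraction group.
Then that contraction group is trivial. -/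
theorem result (G : Type u) [Group G] [TopologicalSpace G] [IsTopologicalGroup G] [T2Space G]
    [LocallyCompactSpace G] [TotallyDisconnectedSpace G] (A : Type v) [BooleanAlgebra A]
    [MulAction G A] (h : WeaklyDecomposable G A) (g : G) (hg : IsClosed (con g)) :
    con g = {1} := by
  have hcl : IsClosed (conS g : Set G) := hg
  have : LocallyCompactSpace (conS g) := hcl.isClosedEmbedding_subtypeVal.locallyCompactSpace
  have key := fun x : conS g => H15CG.trivial_of_HH (con_cj g) (step2 h g) x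
  ext x
  constructor
  · intro hx
    exact congrArg Subtype.val (key ⟨x, hx⟩)
  · rintro rfl
    exact (conS g).one_mem

end Pool.Agent.Results.MP_5e309c_al.ClosedConTrivial
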